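import Pool.Agent.H61.HB.Stmts

/-!
Project HB (MP_91403e_an), row CAN: integration by parts.  helper63.
-/

set_option autoImplicit false

namespace HB

theorem sq_nonneg_can (k : Z2) : 0 ≤ sq k := by
  unfold sq
  positivity

theorem abs_co_le_can (i : Fin 2) (k : Z2) : |co i k| ≤ 1 + sq k := by
  unfold co sq
  split_ifs
  · have h1 : |(k.1 : ℝ)| ≤ 1 + (k.1 : ℝ) ^ 2 := by
      nlinarith [sq_abs (k.1 : ℝ), sq_nonneg (|(k.1 : ℝ)| - 1), abs_nonneg (k.1 : ℝ)]
    nlinarith [sq_nonneg (k.2 : ℝ)]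
  · have h1 : |(k.2 : ℝ)| ≤ 1 + (k.2 : ℝ) ^ 2 := by
      nlinarith [sq_abs (k.2 : ℝ), sq_nonneg (|(k.2 : ℝ)| - 1), abs_nonneg (k.2 : ℝ)]
    nlinarith [sq_nonneg (k.1 : ℝ)]

theorem norm_off_le_can (f : Z2 → ℂ) (k : Z2) : ‖off f k‖ ≤ ‖f k‖ := by
  unfold off
  split_ifs
  · simp
  · exact le_refl _

/-- the weight of the double sum -/
noncomputable def aCan (w : V) (k l : Z2) : ℂ :=
  ∑ i : Fin 2, w i l * (Complex.I * (co i k : ℂ))

/-- the integrand of the double sum -/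
noncomputable def fCan (w : V) (f : Z2 → ℂ) (x : Z2 × Z2) : ℂ :=
  (starRingEnd ℂ) (off f x.1) * aCan w (x.1 - x.2) x.2 * off f (x.1 - x.2)

theorem aCan_zero (w : V) (l : Z2) : aCan w 0 l = 0 := by
  simp [aCan, co]

theorem trm_eq_can (w : V) (f : Z2 → ℂ) (k l : Z2) :
    trm w f k l = aCan w (k - l) l * off f (k - l) := by
  by_cases h : k - l = 0
  · simp [trm, h, aCan_zero, co]
  · simp only [trm, aCan, off, h, if_false, Finset.sum_mul]

theorem norm_aCan_le (w : V) (k l : Z2) :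
    ‖aCan w k l‖ ≤ (‖w 0 l‖ + ‖w 1 l‖) * (1 + sq k) := by
  have h0 : ∀ i : Fin 2, ‖w i l * (Complex.I * (co i k : ℂ))‖ ≤ ‖w i l‖ * (1 + sq k) := by
    intro i
    rw [norm_mul, norm_mul, Complex.norm_I, one_mul, Complex.norm_real, Real.norm_eq_abs]
    exact mul_le_mul_of_nonneg_left (abs_co_le_can i k) (norm_nonneg _)
  unfold aCan
  rw [Fin.sum_univ_two, add_mul]
  exact (norm_add_le _ _).trans (add_le_add (h0 0) (h0 1))

theorem summable_l1_can (hLON : LONStmt) (w : V) (hw : Mem 2 w) :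
    Summable fun l => ‖w 0 l‖ + ‖w 1 l‖ := by
  have h : ∀ j, Summable fun l => ‖w j l‖ := by
    intro j
    have h1 := (hLON 0 (w j) (by simpa using hw j)).1
    simpa using h1
  exact (h 0).add (h 1)

theorem summable_l2_can (f : Z2 → ℂ) (hf : MemS 2 f) :
    Summable fun k => ((1 + sq k) * ‖f k‖) ^ 2 := by
  refine hf.congr ?_
  intro k
  rw [mul_pow, Real.rpow_two]

theorem summable_fCan (hYNG : YNGStmt) (hLON : LONStmt) (w : V) (f : Z2 → ℂ) (hw : Mem 2 w)
    (hf : MemS 2 f) : Summable (fCan w f) := by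
  set p : Z2 → ℝ := fun l => ‖w 0 l‖ + ‖w 1 l‖ with hp
  set q : Z2 → ℝ := fun k => (1 + sq k) * ‖f k‖ with hq
  have hp0 : ∀ k, 0 ≤ p k := fun k => by rw [hp]; positivity
  have hq0 : ∀ k, 0 ≤ q k := fun k =>
    mul_nonneg (by linarith [sq_nonneg_can k]) (norm_nonneg _)
  obtain ⟨h1, h2, _⟩ := hYNG p q hp0 hq0 (summable_l1_can hLON w hw) (summable_l2_can f hf)
  have hY0 : ∀ k, 0 ≤ ∑' l, p l * q (k - l) := fun k =>
    tsum_nonneg fun l => mul_nonneg (hp0 _) (hq0 _)
  have hnn : 0 ≤ fun x : Z2 × Z2 => ‖f x.1‖ * (p x.2 * q (x.1 - x.2)) := fun x =>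
    mul_nonneg (norm_nonneg _) (mul_nonneg (hp0 _) (hq0 _))
  have h5 : ∀ k, ‖f k‖ ≤ q k := by
    intro k
    show ‖f k‖ ≤ (1 + sq k) * ‖f k‖
    nlinarith [mul_nonneg (sq_nonneg_can k) (norm_nonneg (f k))]
  have h6 : Summable fun k => ‖f k‖ * ∑' l, p l * q (k - l) := by
    have h4 : Summable fun k => q k ^ 2 + (∑' l, p l * q (k - l)) ^ 2 :=
      (summable_l2_can f hf).add h2
    refine Summable.of_nonneg_of_le (fun k => mul_nonneg (norm_nonneg _) (hY0 k)) ?_ h4
    intro k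
    have h7 := mul_le_mul_of_nonneg_right (h5 k) (hY0 k)
    have h8 := sq_nonneg (q k - ∑' l, p l * q (k - l))
    have h9 := mul_nonneg (hq0 k) (hY0 k)
    nlinarith
  have hmain : Summable fun x : Z2 × Z2 => ‖f x.1‖ * (p x.2 * q (x.1 - x.2)) := by
    refine (summable_prod_of_nonneg hnn).2 ⟨?_, ?_⟩
    · intro k
      exact (h1 k).mul_left ‖f k‖
    · have h10 : ∀ k, ∑' l, ‖f k‖ * (p l * q (k - l)) = ‖f k‖ * ∑' l, p l * q (k - l) :=
        fun k => tsum_mul_left
      exact h6.congr fun k => (h10 k).symm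
  refine Summable.of_norm_bounded hmain ?_
  intro x
  unfold fCan
  rw [norm_mul, norm_mul, RCLike.norm_conj, mul_assoc]
  refine mul_le_mul (norm_off_le_can f x.1) ?_ (by positivity) (norm_nonneg _)
  calc ‖aCan w (x.1 - x.2) x.2‖ * ‖off f (x.1 - x.2)‖
      ≤ ((‖w 0 x.2‖ + ‖w 1 x.2‖) * (1 + sq (x.1 - x.2))) * ‖f (x.1 - x.2)‖ := by
        refine mul_le_mul (norm_aCan_le _ _ _) (norm_off_le_can _ _) (norm_nonneg _) ?_
        exact mul_nonneg (by positivity) (by linarith [sq_nonneg_can (x.1 - x.2)])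
    _ = p x.2 * q (x.1 - x.2) := by rw [hp, hq]; ring

/-- the involution of the double sum -/
def invCan : Z2 × Z2 ≃ Z2 × Z2 where
  toFun x := (x.1 - x.2, -x.2)
  invFun x := (x.1 - x.2, -x.2)
  left_inv x := by ext <;> simp
  right_inv x := by ext <;> simp

theorem fCan_inv (w : V) (f : Z2 → ℂ) (hr : Rl w) (x : Z2 × Z2) :
    (starRingEnd ℂ) (fCan w f (invCan x)) =
      -(fCan w f x + (starRingEnd ℂ) (off f x.1) * dvg w x.2 * off f (x.1 - x.2)) := by
  obtain ⟨k, l⟩ := x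
  have hk : k - l - -l = k := by abel
  have hco : ∀ i : Fin 2, (co i k : ℂ) = (co i (k - l) : ℂ) + (co i l : ℂ) := by
    intro i
    unfold co
    split_ifs <;> push_cast [Prod.fst_sub, Prod.snd_sub] <;> ring
  simp only [fCan, invCan, Equiv.coe_fn_mk, hk, aCan, dvg, Fin.sum_univ_two, map_mul, map_add,
    Complex.conj_conj, hr 0 l, hr 1 l, Complex.conj_I, Complex.conj_ofReal]
  rw [hco 0, hco 1]
  ring

/-- **CAN** -/
theorem CAN_thm (hYNG : YNGStmt) (hLON : LONStmt) : CANStmt := by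
  intro w f hw hr hf
  have hF := summable_fCan hYNG hLON w f hw hf
  have hF1 : Summable fun x : Z2 × Z2 => fCan w f (invCan x) :=
    hF.comp_injective invCan.injective
  have hFi : Summable fun x : Z2 × Z2 => (starRingEnd ℂ) (fCan w f (invCan x)) :=
    hF1.star
  set G : Z2 × Z2 → ℂ := fun x => (starRingEnd ℂ) (off f x.1) * dvg w x.2 * off f (x.1 - x.2)
    with hG
  have hGF : ∀ x, G x = -(fCan w f x) - (starRingEnd ℂ) (fCan w f (invCan x)) := by
    intro x
    rw [fCan_inv w f hr x, hG]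
    ring
  have htr : tr3 (dvg w) f =
      -(∑' x, fCan w f x) - (starRingEnd ℂ) (∑' x, fCan w f x) := by
    have h1 : tr3 (dvg w) f = ∑' x, G x := rfl
    rw [h1]
    simp only [hGF]
    rw [Summable.tsum_sub hF.neg hFi, tsum_neg]
    congr 1
    have h2 : ∑' x, (starRingEnd ℂ) (fCan w f (invCan x)) =
        (starRingEnd ℂ) (∑' x, fCan w f (invCan x)) := by
      exact (Complex.conj_tsum (fun x => fCan w f (invCan x))).symm
    rw [h2, invCan.tsum_eq (fCan w f)]
  have hprd : prd f (dot w f) = (∑' x, fCan w f x).re := by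
    have hFk : ∀ k, ∑' l, fCan w f (k, l) = (starRingEnd ℂ) (off f k) * dot w f k := by
      intro k
      unfold dot
      rw [← tsum_mul_left]
      refine tsum_congr fun l => ?_
      rw [trm_eq_can]
      simp only [fCan]
      ring
    have h3 : Summable fun k => ∑' l, fCan w f (k, l) := hF.prod
    rw [hF.tsum_prod, Complex.re_tsum h3]
    unfold prd
    refine tsum_congr fun k => ?_
    rw [hFk]
  rw [hprd, htr]
  simp
  ring

end HB
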