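import Pool.Agent.H61.HB.Stmts

/-!
Project HB (MP_91403e_an), row EXT: continuation.  helper63.
-/

set_option autoImplicit false

namespace HB

open Set

/-- solution on `[0,T]` with data `u₀` which keeps reality and triangularity -/
def GoodE (ν s T : ℝ) (u₀ : V) (u : ℝ → V) : Prop :=
  Sol ν s T u ∧ u 0 = u₀ ∧ (Rl u₀ → ∀ t ∈ Set.Icc 0 T, Rl (u t)) ∧
    (∀ m : ℝ × ℝ, m ≠ 0 → Tri m u₀ → ∀ t ∈ Set.Icc 0 T, Tri m (u t))

theorem goodE_restrict (hRES : RESStmt) {ν s T T' : ℝ} {u₀ : V} {u : ℝ → V} (hT : T' ≤ T)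
    (h : GoodE ν s T u₀ u) : GoodE ν s T' u₀ u :=
  ⟨hRES.1 ν s T T' u hT h.1, h.2.1,
    fun hr t ht => h.2.2.1 hr t ⟨ht.1, ht.2.trans hT⟩,
    fun m hm hm' t ht => h.2.2.2 m hm hm' t ⟨ht.1, ht.2.trans hT⟩⟩

theorem goodE_step (hGLU : GLUStmt) {ν s T τ : ℝ} {u₀ : V} {u v : ℝ → V} (hT : 0 ≤ T)
    (hτ : 0 ≤ τ) (h : GoodE ν s T u₀ u) (hv : GoodE ν s τ (u T) v) :
    GoodE ν s (T + τ) u₀ (fun t => if t ≤ T then u t else v (t - T)) := by
  refine ⟨hGLU ν s T τ u v hT hτ h.1 hv.1 hv.2.1, ?_, ?_, ?_⟩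
  · simp only [hT, if_true]
    exact h.2.1
  · intro hr t ht
    by_cases htT : t ≤ T
    · simp only [htT, if_true]
      exact h.2.2.1 hr t ⟨ht.1, htT⟩
    · simp only [htT, if_false]
      have h1 : Rl (u T) := h.2.2.1 hr T ⟨hT, le_refl T⟩
      exact hv.2.2.1 h1 (t - T) ⟨by linarith [not_le.1 htT], by linarith [ht.2]⟩
  · intro m hm hm' t ht
    by_cases htT : t ≤ T
    · simp only [htT, if_true]
      exact h.2.2.2 m hm hm' t ⟨ht.1, htT⟩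
    · simp only [htT, if_false]
      have h1 : Tri m (u T) := h.2.2.2 m hm hm' T ⟨hT, le_refl T⟩
      exact hv.2.2.2 m hm h1 (t - T) ⟨by linarith [not_le.1 htT], by linarith [ht.2]⟩

/-- **EXT** -/
theorem EXT_thm (hLOC : LOCStmt) (hGLU : GLUStmt) (hUNQ : UNQStmt) (hRES : RESStmt) :
    EXTStmt := by
  intro ν s u₀ B hν hs hu₀ hB
  -- existence on every interval
  have hA : ∀ T : ℝ, 0 ≤ T → ∃ u : ℝ → V, GoodE ν s T u₀ u := by
    intro T hT
    obtain ⟨τ, hτ, hloc⟩ := hLOC ν s (max (B T) 0) hν hs (le_max_right _ _)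
    have hn : ∀ n : ℕ, ∃ u : ℝ → V, GoodE ν s (min (n * τ) T) u₀ u := by
      intro n
      induction n with
      | zero =>
        refine ⟨fun _ => u₀, ?_⟩
        have h0 : min (((0 : ℕ) : ℝ) * τ) T = 0 := by simp [hT]
        rw [h0]
        exact ⟨hRES.2.2.2 ν s u₀ hu₀, rfl, fun hr t _ => hr, fun m _ hm' t _ => hm'⟩
      | succ n ih =>
        obtain ⟨u, hu⟩ := ih
        set T' : ℝ := min (n * τ) T with hT'
        have hT'0 : 0 ≤ T' := le_min (by positivity) hT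
        have hT'T : T' ≤ T := min_le_right _ _
        have hb : nsq s (u T') ≤ max (B T) 0 :=
          (hB T T' hT'0 hT'T u hu.1 hu.2.1 hu.2.2.1 hu.2.2.2).trans (le_max_left _ _)
        have hmem : Mem s (u T') := hu.1.cts.1 T' ⟨hT'0, le_refl _⟩
        obtain ⟨v, hv, hv0, _, hvr, hvt⟩ := hloc (u T') hmem hb
        have hg : GoodE ν s τ (u T') v := ⟨hv, hv0, hvr, hvt⟩
        refine ⟨_, goodE_restrict hRES ?_ (goodE_step hGLU hT'0 hτ.le hu hg)⟩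
        rcases le_total ((n : ℝ) * τ) T with h | h
        · rw [hT', min_eq_left h]
          refine (min_le_left _ _).trans (le_of_eq ?_)
          push_cast
          ring
        · rw [hT', min_eq_right h]
          exact (min_le_right _ _).trans (by linarith)
    obtain ⟨n, hn'⟩ := exists_nat_ge (T / τ)
    obtain ⟨u, hu⟩ := hn n
    refine ⟨u, ?_⟩
    have h1 : T ≤ n * τ := by rwa [div_le_iff₀ hτ] at hn'
    rwa [min_eq_right h1] at hu
  choose w hw using fun n : ℕ => hA n (Nat.cast_nonneg n)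
  -- agreement
  have hag : ∀ (N : ℕ) (t : ℝ), 0 ≤ t → t ≤ N → w ⌈t⌉₊ t = w N t := by
    intro N t ht htN
    have hle : ⌈t⌉₊ ≤ N := Nat.ceil_le.2 htN
    have hle' : ((⌈t⌉₊ : ℕ) : ℝ) ≤ (N : ℝ) := by exact_mod_cast hle
    have h1 := hw ⌈t⌉₊
    have h2 := goodE_restrict hRES hle' (hw N)
    refine hUNQ ν s (⌈t⌉₊ : ℝ) (w ⌈t⌉₊) (w N) hν hs (Nat.cast_nonneg _) h1.1 h2.1 ?_ t
      ⟨ht, Nat.le_ceil t⟩
    rw [h1.2.1, h2.2.1]
  refine ⟨fun t => w ⌈t⌉₊ t, ?_, ?_⟩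
  · have := (hw 0).2.1
    simpa using this
  · intro T hT
    have hTN : T ≤ (⌈T⌉₊ : ℝ) := Nat.le_ceil T
    have hg : GoodE ν s T u₀ (w ⌈T⌉₊) := goodE_restrict hRES hTN (hw ⌈T⌉₊)
    refine ⟨?_, ?_, ?_⟩
    · refine hRES.2.2.1 ν s T (w ⌈T⌉₊) _ ?_ hg.1
      intro t ht
      exact (hag ⌈T⌉₊ t ht.1 (ht.2.trans hTN)).symm
    · intro hr
      exact hg.2.2.1 hr T ⟨hT, le_refl T⟩
    · intro m hm hm'
      exact hg.2.2.2 m hm hm' T ⟨hT, le_refl T⟩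

end HB
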